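import Pool.Agent.H22.AN.TB3
import Pool.Agent.H80.AN.TargetsA

/-! MP_2697e3_an, OCN: energy in the neck. -/

set_option autoImplicit false

namespace Pool.Agent.H89.AN

open MeasureTheory Metric Set Filter Topology Pool.Agent.H87.SN Pool.Agent.H87.SH
open Pool.Agent.H22.AN
open scoped ContDiff RealInnerProductSpace ENNReal

lemma rho_cont {d : ℕ} : Continuous (fun x : V d => rho x) := by
  unfold rho
  fun_prop

lemma nsq_nn {n : ℕ} {F : Type*} [NormedAddCommGroup F] [NormedSpace ℝ F] (L : E n →L[ℝ] F) :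
    0 ≤ nsq L := Finset.sum_nonneg fun i _ => by positivity

theorem pf_OCN (hMUF : T_MUF) : T_OCN := by
  intro d
  have hw0 : 0 ≤ volume.real (ball (0 : V d) 2) := measureReal_nonneg
  have ho0 : 0 ≤ volume.real (ball (0 : V d) 1) := measureReal_nonneg
  refine ⟨volume.real (ball (0 : V d) 2) + 4 * volume.real (ball (0 : V d) 1), by positivity, ?_⟩
  intro m L Λ ε U u G h r₁ δ R hr₁ hR hx
  obtain ⟨-, -, -, hM, -, -⟩ := hMUF d m G h.gd.memG
  have hRs : ball (0 : V d) R ⊆ ball 0 2 := ball_subset_ball hR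
  have hae : ∀ (S : Set (V d)) (B : ℝ), MeasurableSet S → S ⊆ U → (∀ x ∈ S, en u x ≤ B) →
      volume S < ⊤ → ∫ x in S, nsq (G x) ≤ B * volume.real S := by
    intro S B hS hSU hB hSf
    refine (le_abs_self _).trans ?_
    rw [← Real.norm_eq_abs]
    refine norm_setIntegral_le_of_norm_le_const_ae hSf ?_
    have h1 := ae_restrict_of_ae_restrict_of_subset hSU h.ae
    filter_upwards [h1, ae_restrict_mem hS] with x hx1 hx2
    rw [Real.norm_of_nonneg (nsq_nn _), hx1]
    exact hB x hx2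
  have hen : ∀ x ∈ ball (0 : V d) R, ∀ s : ℝ, r₁ ≤ s → s ≤ rho x → en u x ≤ δ ^ 2 / s ^ 2 := by
    intro x hxR s hs hsx
    have hs0 : 0 < s := by linarith
    have h1 := (hx x hxR (hs.trans hsx)).2
    rw [le_div_iff₀ (by positivity)]
    have h2 : 0 ≤ en u x := nsq_nn _
    have h3 : s ^ 2 ≤ rho x ^ 2 := pow_le_pow_left₀ hs0.le hsx 2
    calc en u x * s ^ 2 ≤ en u x * rho x ^ 2 := mul_le_mul_of_nonneg_left h3 h2
      _ = rho x ^ 2 * en u x := mul_comm _ _
      _ ≤ δ ^ 2 := h1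
  constructor
  · have hS : MeasurableSet {x : V d | x ∈ ball 0 R ∧ r₁ ≤ rho x} :=
      isOpen_ball.measurableSet.inter (isClosed_le continuous_const rho_cont).measurableSet
    have hsub : {x : V d | x ∈ ball 0 R ∧ r₁ ≤ rho x} ⊆ ball 0 2 := fun x hx' => hRs hx'.1
    have hfin : volume (ball (0 : V d) 2) < ⊤ := measure_ball_lt_top
    have h1 := hae {x : V d | x ∈ ball 0 R ∧ r₁ ≤ rho x} (δ ^ 2 / r₁ ^ 2) hS
      (fun x hx' => (hx x hx'.1 hx'.2).1) (fun x hx' => hen x hx'.1 r₁ le_rfl hx'.2)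
      ((measure_mono hsub).trans_lt hfin)
    have h2 : volume.real {x : V d | x ∈ ball 0 R ∧ r₁ ≤ rho x} ≤
        volume.real (ball (0 : V d) 2) := measureReal_mono hsub hfin.ne
    have h3 : 0 ≤ δ ^ 2 / r₁ ^ 2 := by positivity
    calc oc G r₁ R ≤ δ ^ 2 / r₁ ^ 2 * volume.real {x : V d | x ∈ ball 0 R ∧ r₁ ≤ rho x} := h1
      _ ≤ δ ^ 2 / r₁ ^ 2 * (volume.real (ball (0 : V d) 2) +
          4 * volume.real (ball (0 : V d) 1)) :=
          mul_le_mul_of_nonneg_left (by linarith) h3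
      _ = _ := by ring
  · intro x t ht hrt hxt hrho hrt2
    have hsub : ball x t ⊆ ball (0 : V d) 2 := hxt.trans hRs
    have hvol : volume.real (ball x t) = t ^ (d + 2) * volume.real (ball (0 : V d) 1) := by
      rw [measureReal_def, measureReal_def, Measure.addHaar_ball volume x ht.le,
        ENNReal.toReal_mul, ENNReal.toReal_ofReal (by positivity), finrank_euclideanSpace_fin]
    have h1 := hae (ball x t) (δ ^ 2 / (t / 2) ^ 2) measurableSet_ball
      (fun y hy => (hx y (hxt hy) (hrt2.trans (hrho y hy))).1)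
      (fun y hy => hen y (hxt hy) (t / 2) hrt2 (hrho y hy)) measure_ball_lt_top
    rw [← (hM (ball x t) measurableSet_ball hsub).2, hvol] at h1
    unfold th
    rw [div_le_iff₀ (by positivity)]
    have h2 : δ ^ 2 / (t / 2) ^ 2 * (t ^ (d + 2) * volume.real (ball (0 : V d) 1)) =
        4 * volume.real (ball (0 : V d) 1) * δ ^ 2 * t ^ d := by
      rw [pow_add]
      field_simp
      ring
    rw [h2] at h1
    refine h1.trans ?_
    have h3 : 0 ≤ δ ^ 2 * t ^ d := by positivity
    nlinarith [mul_nonneg hw0 h3]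

end Pool.Agent.H89.AN
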