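import Pool.Agent.H80.AN.TargetsA

/-! MP_2697e3_an, SEL: the frame of a pinched cell. -/

set_option autoImplicit false

namespace Pool.Agent.H89.AN

open MeasureTheory Metric Set Filter Topology Pool.Agent.H87.SN Pool.Agent.H87.SH
open Pool.Agent.H22.AN
open scoped ContDiff RealInnerProductSpace ENNReal

/-- square integrability of a derivative in a fixed direction -/
lemma int_sq {d m : ℕ} {G : V d → V d →L[ℝ] E m}
    (hG : MemLp G 2 (volume.restrict (ball (0 : V d) 2))) {B : Set (V d)} (hB : B ⊆ ball 0 2)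
    (w : V d) : IntegrableOn (fun y => ‖G y w‖ ^ 2) B := by
  have h1 : MemLp G 2 (volume.restrict B) := hG.mono_measure (Measure.restrict_mono hB le_rfl)
  have h2 : MemLp (fun y => G y w) 2 (volume.restrict B) :=
    (ContinuousLinearMap.apply ℝ (E m) w).comp_memLp' h1
  exact MemLp.integrable_norm_pow (p := 2) h2 two_ne_zero

lemma zm_inj {d : ℕ} (c : V d) {r : ℝ} (hr : 0 < r) (g : V d ≃ₗᵢ[ℝ] V d) :
    Function.Injective (zm c r g) := by
  intro y z h
  have h1 : c + r • g y = c + r • g z := h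
  have h2 : r • g y = r • g z := add_left_cancel h1
  exact g.injective (smul_right_injective _ hr.ne' h2)

/-- change of variables -/
lemma zm_integral {d : ℕ} (c : V d) {r : ℝ} (hr : 0 < r) (g : V d ≃ₗᵢ[ℝ] V d) (F : V d → ℝ)
    (S : Set (V d)) (hS : MeasurableSet S) (hS' : MeasurableSet (zm c r g '' S)) :
    ∫ y in S, F (zm c r g y) = (r ^ (d + 2))⁻¹ * ∫ x in zm c r g '' S, F x := by
  have hinj := zm_inj c hr g
  have h1 : ∫ y in S, F (zm c r g y) = ∫ y, (zm c r g '' S).indicator F (zm c r g y) := by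
    rw [← integral_indicator hS]
    congr 1
    funext y
    by_cases hy : y ∈ S
    · rw [indicator_of_mem hy, indicator_of_mem (mem_image_of_mem _ hy)]
    · rw [indicator_of_notMem hy, indicator_of_notMem]
      rintro ⟨z, hz, he⟩
      exact hy (hinj he ▸ hz)
  rw [h1, ← integral_indicator hS']
  have h2 : ∫ y, (zm c r g '' S).indicator F (zm c r g y) =
      ∫ y, (zm c r g '' S).indicator F (c + r • y) :=
    (LinearIsometryEquiv.measurePreserving g).integral_comp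
      g.toHomeomorph.measurableEmbedding (fun y => (zm c r g '' S).indicator F (c + r • y))
  rw [h2]
  have h3 := Measure.integral_comp_smul (volume : Measure (V d))
    (fun y => (zm c r g '' S).indicator F (c + y)) r
  rw [h3, integral_add_left_eq_self (fun y => (zm c r g '' S).indicator F y) c,
    finrank_euclideanSpace_fin, smul_eq_mul, abs_of_pos (by positivity)]

theorem pf_SEL (_hMUF : T_MUF) (hZMU : T_ZMU) (hGST : T_GST) (hPQB : T_PQB) (hONB : T_ONB)
    (hSPT : T_SPT) : T_SEL := by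
  intro d m Λ e om hd hΛ he hom
  set c : ℝ := e / (2 * 64 ^ d) with hc
  have hc0 : 0 < c := by positivity
  obtain ⟨r₁, hr₁, hspt⟩ := hSPT d Λ c hd hΛ.le hc0
  obtain ⟨C, hC, honb⟩ := hONB d r₁ hr₁
  set D : ℝ := d * C with hD
  have hD0 : 0 ≤ D := by positivity
  set om₁ : ℝ := min om (om / (4 * (D + 1))) with hom₁
  have hom₁0 : 0 < om₁ := lt_min hom (by positivity)
  have hom₁1 : om₁ ≤ om := min_le_left _ _
  have hom₁2 : D * (2 * om₁) ≤ om / 2 := by
    have h1 : om₁ ≤ om / (4 * (D + 1)) := min_le_right _ _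
    have h2 : om₁ * (4 * (D + 1)) ≤ om := (le_div_iff₀ (by positivity)).1 h1
    nlinarith
  obtain ⟨K₁, hK₁⟩ := exists_pow_lt_of_lt_one (show 0 < om / (2 * (D * Λ + 1)) by positivity)
    (show (1 / 2 : ℝ) < 1 by norm_num)
  refine ⟨K₁ + 1, om₁ * e / (2 * 64 ^ d), by positivity, ?_⟩
  intro K hK G hG x s hs hx hxe hW
  have hKd : ((1 / 2 : ℝ) ^ K) ^ d ≤ (1 / 2) ^ K₁ := by
    have h1 : ((1 / 2 : ℝ) ^ K) ^ d ≤ (1 / 2) ^ K :=
      pow_le_of_le_one (by positivity) (pow_le_one₀ (by norm_num) (by norm_num)) (by omega)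
    exact h1.trans (pow_le_pow_of_le_one (by norm_num) (by norm_num) (by omega))
  set A : ℝ := 2 * om₁ + Λ * ((1 / 2) ^ K) ^ d with hA
  have hDA : D * A ≤ om := by
    have h1 : D * Λ * ((1 / 2 : ℝ) ^ K) ^ d ≤ om / 2 := by
      have h2 : ((1 / 2 : ℝ) ^ K) ^ d ≤ om / (2 * (D * Λ + 1)) := hKd.trans hK₁.le
      have h3 : ((1 / 2 : ℝ) ^ K) ^ d * (2 * (D * Λ + 1)) ≤ om :=
        (le_div_iff₀ (by positivity)).1 h2
      have h4 : 0 ≤ ((1 / 2 : ℝ) ^ K) ^ d := by positivity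
      nlinarith
    calc D * A = D * (2 * om₁) + D * Λ * ((1 / 2 : ℝ) ^ K) ^ d := by rw [hA]; ring
      _ ≤ om := by linarith
  have hx2 : ball x (2 * s) ⊆ ball 0 2 := (ball_subset_ball (by linarith)).trans hx
  obtain ⟨hSm, hSv⟩ := hGST d m Λ G hG hΛ K x s e om₁ hs hx2 he hom₁0 hxe hW
  set S : Set (V d) := {p : V d | p ∈ ball x (s / 64) ∧ dr G K p s ≤ om₁} with hS
  have hSx : S ⊆ ball x (s / 64) := fun p hp => hp.1
  have hSc : c * s ^ d ≤ (mu G).real S := by
    refine le_trans (le_of_eq ?_) hSv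
    rw [hc, div_pow]
    field_simp
  have hne : S.Nonempty := by
    rw [nonempty_iff_ne_empty]
    intro h0
    rw [h0, measureReal_empty] at hSc
    have : 0 < c * s ^ d := by positivity
    linarith
  obtain ⟨p, hp⟩ := hne
  have hpx : ‖p - x‖ < s / 64 := by
    have := hp.1
    rwa [mem_ball, dist_eq_norm] at this
  -- balls
  have hball : ∀ y : V d, ‖y - x‖ < s / 64 → ∀ t : ℝ, t ≤ 2 * s → ball y t ⊆ ball 0 2 := by
    intro y hy t ht z hz
    refine hx ?_
    rw [mem_ball, dist_eq_norm] at hz ⊢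
    calc ‖z - x‖ = ‖(z - y) + (y - x)‖ := by rw [sub_add_sub_cancel]
      _ ≤ ‖z - y‖ + ‖y - x‖ := norm_add_le _ _
      _ < 4 * s := by linarith
  have hB : ball p (7 / 8 * s) ⊆ ball 0 2 := hball p hpx _ (by linarith)
  set Q : V d → ℝ := fun v => (s ^ d)⁻¹ * ∫ y in ball p (7 / 8 * s), ‖G y v‖ ^ 2 with hQ
  have hQ0 : ∀ v, 0 ≤ Q v := fun v => by
    have : 0 ≤ ∫ y in ball p (7 / 8 * s), ‖G y v‖ ^ 2 := integral_nonneg fun y => by positivity
    simp only [hQ]
    positivity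
  have hQi : ∀ v, IntegrableOn (fun y => ‖G y v‖ ^ 2) (ball p (7 / 8 * s)) := fun v =>
    int_sq hG.memG hB v
  have hQq : ∀ (v w : V d) (a b : ℝ), Q (a • v + b • w) ≤ 2 * a ^ 2 * Q v + 2 * b ^ 2 * Q w := by
    intro v w a b
    have h1 : ∫ y in ball p (7 / 8 * s), ‖G y (a • v + b • w)‖ ^ 2 ≤
        ∫ y in ball p (7 / 8 * s), (2 * a ^ 2 * ‖G y v‖ ^ 2 + 2 * b ^ 2 * ‖G y w‖ ^ 2) := by
      refine integral_mono (hQi _) (((hQi v).const_mul _).add ((hQi w).const_mul _)) fun y => ?_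
      have h2 : ‖G y (a • v + b • w)‖ ≤ |a| * ‖G y v‖ + |b| * ‖G y w‖ := by
        rw [map_add, map_smul, map_smul]
        refine (norm_add_le _ _).trans (le_of_eq ?_)
        rw [norm_smul, norm_smul, Real.norm_eq_abs, Real.norm_eq_abs]
      have h3 : ‖G y (a • v + b • w)‖ ^ 2 ≤ (|a| * ‖G y v‖ + |b| * ‖G y w‖) ^ 2 :=
        pow_le_pow_left₀ (norm_nonneg _) h2 2
      show ‖G y (a • v + b • w)‖ ^ 2 ≤ 2 * a ^ 2 * ‖G y v‖ ^ 2 + 2 * b ^ 2 * ‖G y w‖ ^ 2
      have h4 := sq_nonneg (|a| * ‖G y v‖ - |b| * ‖G y w‖)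
      have h5 : |a| ^ 2 = a ^ 2 := sq_abs a
      have h6 : |b| ^ 2 = b ^ 2 := sq_abs b
      nlinarith
    rw [integral_add ((hQi v).const_mul _) ((hQi w).const_mul _), integral_const_mul,
      integral_const_mul] at h1
    simp only [hQ]
    have h7 : 0 ≤ (s ^ d)⁻¹ := by positivity
    calc (s ^ d)⁻¹ * ∫ y in ball p (7 / 8 * s), ‖G y (a • v + b • w)‖ ^ 2
        ≤ (s ^ d)⁻¹ * (2 * a ^ 2 * (∫ y in ball p (7 / 8 * s), ‖G y v‖ ^ 2) +
          2 * b ^ 2 * ∫ y in ball p (7 / 8 * s), ‖G y w‖ ^ 2) :=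
          mul_le_mul_of_nonneg_left h1 h7
      _ = _ := by ring
  have hS1 : ∀ y' ∈ {v : V d | ∃ y ∈ S, v = s⁻¹ • (y - p)},
      Q (y' - 0) ≤ A ∧ ‖y' - 0‖ ≤ 1 := by
    rintro y' ⟨y, hy, rfl⟩
    have hyx : ‖y - x‖ < s / 64 := by
      have := hy.1
      rwa [mem_ball, dist_eq_norm] at this
    have hyp : ‖y - p‖ ≤ s / 32 := by
      calc ‖y - p‖ = ‖(y - x) - (p - x)‖ := by rw [sub_sub_sub_cancel_right]
        _ ≤ ‖y - x‖ + ‖p - x‖ := norm_sub_le _ _
        _ ≤ s / 32 := by linarith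
    rw [sub_zero]
    constructor
    · have h1 := hPQB d m Λ G hG hΛ.le K p y s om₁ (by omega) hs (hball p hpx _ (by linarith))
        (hball y hyx _ (by linarith)) hyp hp.2 hy.2
      have h2 : ∫ z in ball p (7 / 8 * s), ‖G z (s⁻¹ • (y - p))‖ ^ 2 =
          (s⁻¹) ^ 2 * ∫ z in ball p (7 / 8 * s), ‖G z (y - p)‖ ^ 2 := by
        rw [← integral_const_mul]
        congr 1
        funext z
        rw [map_smul, norm_smul, mul_pow, Real.norm_eq_abs, sq_abs]
      simp only [hQ]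
      rw [h2]
      calc (s ^ d)⁻¹ * ((s⁻¹) ^ 2 * ∫ z in ball p (7 / 8 * s), ‖G z (y - p)‖ ^ 2)
          ≤ (s ^ d)⁻¹ * ((s⁻¹) ^ 2 * (s ^ (d + 2) * A)) := by
            refine mul_le_mul_of_nonneg_left (mul_le_mul_of_nonneg_left h1 ?_) ?_ <;> positivity
        _ = A := by
            rw [pow_add]
            field_simp
    · rw [norm_smul, norm_inv, Real.norm_of_nonneg hs.le, inv_mul_le_iff₀ hs]
      linarith
  have hS2 : ∀ k : ℕ, k < d → ∀ v : Fin k → V d, Orthonormal ℝ v →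
      ∃ y' ∈ {v : V d | ∃ y ∈ S, v = s⁻¹ • (y - p)},
        r₁ ≤ ‖(y' - 0) - ∑ i, ⟪v i, y' - 0⟫ • v i‖ := by
    intro k hk v hv
    obtain ⟨y, hy, h1⟩ := hspt m G hG S x p s hs hx2 hSx hSc k hk v hv
    refine ⟨s⁻¹ • (y - p), ⟨y, hy, rfl⟩, ?_⟩
    have h2 : (s⁻¹ • (y - p) - 0) - ∑ i, ⟪v i, s⁻¹ • (y - p) - 0⟫ • v i =
        s⁻¹ • ((y - p) - ∑ i, ⟪v i, y - p⟫ • v i) := by
      rw [sub_zero]
      generalize y - p = w
      rw [smul_sub, Finset.smul_sum]
      congr 1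
      refine Finset.sum_congr rfl fun i _ => ?_
      rw [real_inner_smul_right, smul_smul]
    rw [h2, norm_smul, norm_inv, Real.norm_of_nonneg hs.le, le_inv_mul_iff₀ hs]
    linarith
  obtain ⟨g, hg⟩ := honb Q {v : V d | ∃ y ∈ S, v = s⁻¹ • (y - p)} 0 A hQ0 hQq hS1 hS2
  obtain ⟨z1, z2, z3, z4, z5, z6⟩ := hZMU d m G p s g hG.memG hs (hball p hpx _ le_rfl)
  have hz0 : zm p s g 0 = p := by
    simp [zm]
  have hzx : zm p s g (g.symm (s⁻¹ • (x - p))) = x := by
    simp only [zm, LinearIsometryEquiv.apply_symm_apply, smul_smul, mul_inv_cancel₀ hs.ne',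
      one_smul, add_sub_cancel]
  have hx0 : ‖g.symm (s⁻¹ • (x - p))‖ < 1 / 64 := by
    rw [LinearIsometryEquiv.norm_map, norm_smul, norm_inv, Real.norm_of_nonneg hs.le,
      inv_mul_lt_iff₀ hs, norm_sub_rev]
    linarith
  refine ⟨p, hp.1, g, g.symm (s⁻¹ • (x - p)), hzx, ⟨hx0, ?_, ?_, ?_⟩⟩
  · rw [z5 _ (1 / 64) (by norm_num) ?_, hzx]
    · have : s * (1 / 64) = s / 64 := by ring
      rw [this]
      exact hxe
    · intro z hz
      rw [mem_ball, dist_eq_norm] at hz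
      rw [mem_ball, dist_zero_right]
      calc ‖z‖ = ‖(z - g.symm (s⁻¹ • (x - p))) + g.symm (s⁻¹ • (x - p))‖ := by
            rw [sub_add_cancel]
        _ ≤ ‖z - g.symm (s⁻¹ • (x - p))‖ + ‖g.symm (s⁻¹ • (x - p))‖ := norm_add_le _ _
        _ < 2 := by linarith
  · have him : zm p s g '' ball 0 (7 / 8) = ball p (7 / 8 * s) := by
      rw [z4, hz0, mul_comm]
    have h1 : ∫ y in ball (0 : V d) (7 / 8), nzs (zG p s g G y) =
        ∫ y in ball (0 : V d) (7 / 8),
          (fun z => s ^ 2 * ∑ i : Fin d, ‖G z (g (bv i.succ.succ))‖ ^ 2) (zm p s g y) := by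
      congr 1
      funext y
      simp only [nzs, zG, Finset.mul_sum]
      refine Finset.sum_congr rfl fun i _ => ?_
      rw [smul_apply, norm_smul, mul_pow, Real.norm_eq_abs, sq_abs]
      rfl
    have h3 := zm_integral p hs g
      (fun z => s ^ 2 * ∑ i : Fin d, ‖G z (g (bv i.succ.succ))‖ ^ 2) (ball 0 (7 / 8))
      measurableSet_ball (by rw [him]; exact measurableSet_ball)
    rw [h1]
    refine (le_of_eq h3).trans ?_
    rw [him, integral_const_mul, integral_finsetSum _ fun i _ => hQi _]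
    have h2 : (s ^ (d + 2))⁻¹ * (s ^ 2 * ∑ i : Fin d,
        ∫ z in ball p (7 / 8 * s), ‖G z (g (bv i.succ.succ))‖ ^ 2) =
        ∑ i : Fin d, Q (g (bv i.succ.succ)) := by
      simp only [hQ]
      rw [← Finset.mul_sum, ← mul_assoc]
      congr 1
      rw [pow_add]
      field_simp
    rw [h2]
    calc ∑ i : Fin d, Q (g (bv i.succ.succ)) ≤ ∑ i : Fin d, C * A :=
          Finset.sum_le_sum fun i _ => hg i
      _ = D * A := by
          rw [Finset.sum_const, Finset.card_univ, Fintype.card_fin, nsmul_eq_mul, hD]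
          ring
      _ ≤ om := hDA
  · rw [z5 0 1 one_pos (ball_subset_ball (by norm_num)),
      z5 0 ((1 / 2) ^ K) (by positivity) (ball_subset_ball ?_), hz0]
    · have h1 : s * (1 / 2) ^ K = s / 2 ^ K := by
        rw [one_div, inv_pow]
        rfl
      rw [mul_one, h1]
      exact hp.2.trans hom₁1
    · exact (pow_le_one₀ (by norm_num) (by norm_num)).trans (by norm_num)

end Pool.Agent.H89.AN
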